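import Pool.Agent.E8helper80.AX.Plane

/-!
# Non-special systems with groups of general points of equal multiplicities: most of the open window
-/

set_option autoImplicit false

namespace Pool.Agent.Results.MP_cfebfb_ag.PellWindowH80

open Pool.Agent.H932R3 Pool.Agent.E8helper80.AX

/-- See the claim file. -/
theorem result (M r k h : ℕ) (m : Fin r → ℕ) (hM : 1 ≤ M) (hr : 1 ≤ r) (hk : k + r * M = 9) :
    ∃ F : MvPolynomial (Fin (k + r * (M + 2)) × Fin 2) ℚ, F ≠ 0 ∧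
      ∀ {L : Type} [Field L] [CharZero L] (P : Fin (k + r * (M + 2)) → Fin 2 → L),
        MvPolynomial.aeval (fun ij : Fin (k + r * (M + 2)) × Fin 2 => P ij.1 ij.2) F ≠ 0 →
        ∀ d : ℕ, ((d ≤ 3 * h ∧ (∀ j, M * Nat.choose (h + 1) 2 ≤ (M + 2) * Nat.choose (m j + 1) 2) ∧
            ∃ j, M * h ^ 2 < (M + 2) * m j ^ 2 ∨
              (M ≤ m j ∧ (M : ℤ) * ((h : ℤ) - (M + 1)) ^ 2 < (M + 2) * ((m j : ℤ) - M) ^ 2)) ∨
          (3 * h ≤ d ∧ ∀ j, (M + 2) * Nat.choose (m j + 1) 2 ≤ M * Nat.choose (h + 1) 2)) →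
        ExpDim L (Fin.append (fun _ : Fin k => h) (fun i : Fin (r * (M + 2)) => m i.divNat)) P d :=
  expDim_multi hM hr hk h m

end Pool.Agent.Results.MP_cfebfb_ag.PellWindowH80
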