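import Pool.Agent.E8helper80.AX.Plane

/-!
# Non-special systems with groups of general points of equal multiplicities and simple points
-/

set_option autoImplicit false

namespace Pool.Agent.Results.MP_cfebfb_ag.SimplePointsH80

open Pool.Agent.H932R3 Pool.Agent.E8helper80.AX

/-- See the claim file. -/
theorem result (M r k s h : ℕ) (m : Fin r → ℕ) (hM : 1 ≤ M) (hr : 1 ≤ r) (hs : 1 ≤ s) (hk : k + r * M = 9)
    (hG : (∀ j, M * Nat.choose (h + 1) 2 ≤ (M + 2) * Nat.choose (m j + 1) 2) ∨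
      ∀ j, (M + 2) * Nat.choose (m j + 1) 2 ≤ M * Nat.choose (h + 1) 2) :
    ∃ F : MvPolynomial (Fin (k + r * (M + 2) + s) × Fin 2) ℚ, F ≠ 0 ∧
      ∀ {L : Type} [Field L] [CharZero L] (P : Fin (k + r * (M + 2) + s) → Fin 2 → L),
        MvPolynomial.aeval (fun ij : Fin (k + r * (M + 2) + s) × Fin 2 => P ij.1 ij.2) F ≠ 0 →
        ExpDim L (Fin.append (Fin.append (fun _ : Fin k => h) (fun i : Fin (r * (M + 2)) => m i.divNat))
          (fun _ : Fin s => 1)) P (3 * h) :=
  expDim_multi_simple hM hr hs hk h m hG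

end Pool.Agent.Results.MP_cfebfb_ag.SimplePointsH80
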